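import Pool.Agent.L5helper14.RDM.Fam
import Pool.Agent.L5helper14.RDM.Pal
import Pool.Agent.Results.MP_b56c98_ag.PlanePrimeMultiplicities

set_option autoImplicit false

/-!
# The plane Hilbert functions for palindromic multiplicities

Let `H_{2,r,m}` be the Hilbert function of `r` general points of multiplicity `m` in the projective plane.
The starting result `PlaneAllDegrees` determines it, `H_{2,r,m}(d) = min (binom (d + 2) 2) (r * binom (m + 1) 2)`
in every degree `d`, if `r ≥ 37` or if `r` is one of `13`, `16`, `21`, `25`, `36`; for the other `r ≥ 10`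
it says the same for all multiplicities `m` outside of a set which is described by the fractional parts of
the multiples of `√r`, `bad r` being the proportion of the bad `m`.

Here `m` runs through the palindromes with `n` digits in any base `b ≥ 2` (`palindromes b n`): the natural
numbers with exactly `n` digits whose digits number `i` and `n - 1 - i` are equal for all `i`. There are
about `√X` palindromes up to `X`.

**Theorem.** Let `b ≥ 2`.

(1) For at least the proportion `1 / 10000 ^ 22` of the palindromes `m` with `n` digits in base `b`, `n` large,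
for EVERY number `r ≥ 10` of points and EVERY degree `d` the Hilbert function is
`H_{2,r,m}(d) = min (binom (d + 2) 2) (r * binom (m + 1) 2)`.

(2) For every single `r ≥ 10` and every `δ > 0` this holds in all degrees for all but at most the proportion
`bad r + δ` of the palindromes with `n` digits, `n` large; `bad r < 1`, `bad r = 0` for `r ≥ 37`, `r = 13`,
`r = 21` and the squares, and `bad 10 < 0.163`, `bad 11 < 0.053`, `bad 12 < 0.465`, `bad 14 < 0.738`,
`bad 15 < 0.146`.

Proof. The plane systems are those of helper141 (`Pool.Agent.N141.SG`): a multiplicity `m` is good for all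
numbers of points if the numbers `m √r` lie in certain arcs modulo one for 20 radicands `r`, and the
square roots of the radicands are linearly independent over `ℚ`. New: for every irrational `θ` the
exponential sum of `θ m` over the palindromes is a product over the pairs of opposite positions, whose
factors are small if `w_j = θ (b ^ (h + j) + b ^ (c - 1 - j))` is not near an integer. As
`w_(j+1) - b w_j = - θ (b ^ 2 - 1) b ^ (c - 2 - j)`, in which only the LOWER powers of `b` occur, this
happens for many `j`.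
-/

namespace Pool.Agent.Results.MP_b56c98_ag.PalindromicMultiplicities

open Filter
open Pool.Agent.Results.MP_b56c98_ag.PlanePrimeMultiplicities (AllDegrees bad allDegrees_of)
open Pool.Agent.L5helper14.RDM (palindromes)

/-- The multiplicity `m ≥ 1` is settled for every number `r ≥ 10` of points. -/
def Holds (m : ℕ) : Prop := 1 ≤ m ∧ ∀ r : ℕ, 10 ≤ r → AllDegrees r m

theorem holds_of {m : ℕ} (hm : 1 ≤ m) (h : Pool.Agent.N141.SG.Tgt (m : ℕ)) : Holds m :=
  ⟨hm, fun _ hr => allDegrees_of (Pool.Agent.N141.SG.every h hm hr)⟩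

/-- the palindromes have small exponential sums -/
theorem usmall {b : ℕ} (hb : 2 ≤ b) :
    Pool.Agent.L5helper14.RDM.USmall (fun n => {s | s = palindromes b n}) (fun t => t) := by
  intro θ hθ _ ε hε
  obtain ⟨n₀, h⟩ := Pool.Agent.L5helper14.RDM.palindromes_small hb hθ hε
  refine ⟨n₀, fun n hn s hs => ?_⟩
  rw [Set.mem_ofPred_eq] at hs
  subst hs
  exact h n hn

/-- **The plane Hilbert functions for palindromic multiplicities.** -/
theorem result :
    (∀ b : ℕ, 2 ≤ b → ∃ n₀ : ℕ, ∀ n, n₀ ≤ n →
      1 / 10000 ^ 22 * ((palindromes b n).card : ℝ) ≤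
        ({m : ℕ | m ∈ palindromes b n ∧ Holds m}.ncard : ℝ)) ∧
    (∀ b : ℕ, 2 ≤ b → ∀ r : ℕ, 10 ≤ r → ∀ δ : ℝ, 0 < δ → ∃ n₀ : ℕ, ∀ n, n₀ ≤ n →
        ({m : ℕ | m ∈ palindromes b n ∧ 1 ≤ m ∧ ¬ AllDegrees r m}.ncard : ℝ) ≤
          (bad r + δ) * ((palindromes b n).card : ℝ)) ∧
    (∀ r : ℕ, 10 ≤ r → bad r < 1) ∧
    (bad 10 < 0.163 ∧ bad 11 < 0.053 ∧ bad 12 < 0.465 ∧ bad 14 < 0.738 ∧ bad 15 < 0.146) := by
  refine ⟨fun b hb => ?_, fun b hb r hr δ hδ => ?_, fun r hr =>
    Pool.Agent.N141.SG.badU_lt hr, Pool.Agent.N141.SG.badU_vals⟩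
  · obtain ⟨n₀, h⟩ := Pool.Agent.L5helper14.RDM.uniform_tgt (usmall hb)
    refine ⟨n₀, fun n hn => (h n hn _ rfl).trans ?_⟩
    have h1 : {t : ℕ | t ∈ palindromes b n ∧ 1 ≤ t ∧ Pool.Agent.N141.SG.Tgt (t : ℕ)} ⊆
        {m : ℕ | m ∈ palindromes b n ∧ Holds m} := by
      rintro t ⟨h2, h3, h4⟩
      exact ⟨h2, holds_of h3 h4⟩
    exact_mod_cast Set.ncard_le_ncard h1
      ((Finset.finite_toSet (palindromes b n)).subset fun n hn => hn.1)
  · obtain ⟨n₀, h⟩ := Pool.Agent.L5helper14.RDM.uniform_one (usmall hb) hr hδ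
    refine ⟨n₀, fun n hn => le_trans ?_ (h n hn _ rfl)⟩
    have h1 : {m : ℕ | m ∈ palindromes b n ∧ 1 ≤ m ∧ ¬ AllDegrees r m} ⊆
        {t : ℕ | t ∈ palindromes b n ∧ 1 ≤ t ∧ ¬ Pool.Agent.N141.SG.Ex r t} := by
      rintro t ⟨h2, h3, h4⟩
      exact ⟨h2, h3, fun h5 => h4 (allDegrees_of h5)⟩
    exact_mod_cast Set.ncard_le_ncard h1
      ((Finset.finite_toSet (palindromes b n)).subset fun n hn => hn.1)

end Pool.Agent.Results.MP_b56c98_ag.PalindromicMultiplicities
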