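import Pool.Agent.L5helper14.RDM.Fam
import Pool.Agent.Results.MP_b56c98_ag.PlanePrimeMultiplicities

set_option autoImplicit false

/-!
# The plane Hilbert functions for multiplicities with prescribed sets of digits

Let `H_{2,r,m}` be the Hilbert function of `r` general points of multiplicity `m` in the projective plane.
The starting result `PlaneAllDegrees` determines it, `H_{2,r,m}(d) = min (binom (d + 2) 2) (r * binom (m + 1) 2)`
in every degree `d`, if `r ≥ 37` or if `r` is one of `13`, `16`, `21`, `25`, `36`; for the other `r ≥ 10`
it says the same for all multiplicities `m` outside of a set which is described by the fractional parts of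
the multiples of `√r`, `bad r` being the proportion of the bad `m`. The starting results
`PlanePrimeMultiplicities` and `MetricMultiplicities` are about prime `m`, and about sequences with a real
parameter.

Here `m` runs through a set of integers which is given by the digits in any base `b ≥ 2`: for every
position `i < K` a nonempty set `D i` of digits is given, and `numbers b K D` is the set of the
`m < b ^ K` whose digit number `i` is in `D i` for all `i < K`. The only condition (`Free b g K D`) is that
in every block of `g` consecutive positions there is at least one position `i` at which `D i` has at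
least two members. For example
* the integers all of whose digits are in a given set of two or more digits, for instance `0` and `1` in
  base ten (Cantor sets of integers); there are only `X ^ (log 2 / log 10)` up to `X`;
* the integers in which all digits at the even positions are prescribed arbitrarily, or all digits but
  those at the positions divisible by `g`, so that there are about `X ^ (1 / g)` up to `X`;
* the integers with exactly `K` digits and with such conditions (`D (K - 1)` does not contain `0`).

**Theorem.** Let `b ≥ 2` and `g ≥ 1`. There is `K₀` such that for all `K ≥ K₀` and ALL such families `D` of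
sets of digits:

(1) For at least the proportion `1 / 10000 ^ 22` of the `m` in `numbers b K D`, for EVERY number
`r ≥ 10` of points and EVERY degree `d` the Hilbert function is
`H_{2,r,m}(d) = min (binom (d + 2) 2) (r * binom (m + 1) 2)`.

(2) For every single `r ≥ 10` and every `δ > 0` (with `K₀` depending also on `r` and `δ`) this holds in all
degrees for all but at most the proportion `bad r + δ` of the `m` in `numbers b K D`; `bad r < 1`,
`bad r = 0` for `r ≥ 37`, `r = 13`, `r = 21` and the squares, and `bad 10 < 0.163`, `bad 11 < 0.053`,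
`bad 12 < 0.465`, `bad 14 < 0.738`, `bad 15 < 0.146`.

Proof. The plane systems are those of helper141 (`Pool.Agent.N141.SG`): a multiplicity `m` is good for all
numbers of points if the numbers `m √r` lie in certain arcs modulo one for 20 radicands `r`, and the
square roots of the radicands are linearly independent over `ℚ`. New: for every irrational `θ` the
exponential sum of `θ m` over `numbers b K D` is a product over the positions, and the factors at the
positions `i` with at least two digits are small if `θ b! b ^ i` is not near an integer; this happens in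
every long block of positions, uniformly in `D`, because a number near an integer is moved away
from it by multiplication with `b`, `b ^ 2`, …
-/

namespace Pool.Agent.Results.MP_b56c98_ag.PrescribedDigits

open Filter
open Pool.Agent.Results.MP_b56c98_ag.PlanePrimeMultiplicities (AllDegrees bad allDegrees_of)
open Pool.Agent.L5helper14.RDM (numbers)

/-- The multiplicity `m ≥ 1` is settled for every number `r ≥ 10` of points. -/
def Holds (m : ℕ) : Prop := 1 ≤ m ∧ ∀ r : ℕ, 10 ≤ r → AllDegrees r m

/-- The sets `D i`, `i < K`, are nonempty sets of digits in base `b`, and in every block of `g`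
consecutive positions below `K` at least one of them has at least two members. -/
def Free (b g K : ℕ) (D : ℕ → Finset ℕ) : Prop :=
  (∀ i < K, (D i).Nonempty ∧ D i ⊆ Finset.range b) ∧
    ∀ i, i + g ≤ K → ∃ j, i ≤ j ∧ j < i + g ∧ 2 ≤ (D j).card

theorem holds_of {m : ℕ} (hm : 1 ≤ m) (h : Pool.Agent.N141.SG.Tgt (m : ℕ)) : Holds m :=
  ⟨hm, fun _ hr => allDegrees_of (Pool.Agent.N141.SG.every h hm hr)⟩

/-- **The plane Hilbert functions for multiplicities with prescribed sets of digits.** -/
theorem result :
    (∀ b g : ℕ, 2 ≤ b → 1 ≤ g → ∃ K₀ : ℕ, ∀ K, K₀ ≤ K → ∀ D : ℕ → Finset ℕ, Free b g K D →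
      1 / 10000 ^ 22 * ((numbers b K D).card : ℝ) ≤
        ({m : ℕ | m ∈ numbers b K D ∧ Holds m}.ncard : ℝ)) ∧
    (∀ b g : ℕ, 2 ≤ b → 1 ≤ g → ∀ r : ℕ, 10 ≤ r → ∀ δ : ℝ, 0 < δ → ∃ K₀ : ℕ, ∀ K, K₀ ≤ K →
      ∀ D : ℕ → Finset ℕ, Free b g K D →
        ({m : ℕ | m ∈ numbers b K D ∧ 1 ≤ m ∧ ¬ AllDegrees r m}.ncard : ℝ) ≤
          (bad r + δ) * ((numbers b K D).card : ℝ)) ∧
    (∀ r : ℕ, 10 ≤ r → bad r < 1) ∧
    (bad 10 < 0.163 ∧ bad 11 < 0.053 ∧ bad 12 < 0.465 ∧ bad 14 < 0.738 ∧ bad 15 < 0.146) := by
  refine ⟨fun b g hb hg => ?_, fun b g hb hg r hr δ hδ => ?_, fun r hr =>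
    Pool.Agent.N141.SG.badU_lt hr, Pool.Agent.N141.SG.badU_vals⟩
  · obtain ⟨K₀, h⟩ := Pool.Agent.L5helper14.RDM.uniform_tgt
      (Pool.Agent.L5helper14.RDM.usmall_digits hb hg)
    refine ⟨K₀, fun K hK D hD => (h K hK _ ⟨D, hD.1, hD.2, rfl⟩).trans ?_⟩
    have h1 : {t : ℕ | t ∈ numbers b K D ∧ 1 ≤ t ∧ Pool.Agent.N141.SG.Tgt (t : ℕ)} ⊆
        {m : ℕ | m ∈ numbers b K D ∧ Holds m} := by
      rintro t ⟨h2, h3, h4⟩
      exact ⟨h2, holds_of h3 h4⟩
    exact_mod_cast Set.ncard_le_ncard h1
      ((Finset.finite_toSet (numbers b K D)).subset fun n hn => hn.1)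
  · obtain ⟨K₀, h⟩ := Pool.Agent.L5helper14.RDM.uniform_one
      (Pool.Agent.L5helper14.RDM.usmall_digits hb hg) hr hδ
    refine ⟨K₀, fun K hK D hD => le_trans ?_ (h K hK _ ⟨D, hD.1, hD.2, rfl⟩)⟩
    have h1 : {m : ℕ | m ∈ numbers b K D ∧ 1 ≤ m ∧ ¬ AllDegrees r m} ⊆
        {t : ℕ | t ∈ numbers b K D ∧ 1 ≤ t ∧ ¬ Pool.Agent.N141.SG.Ex r t} := by
      rintro t ⟨h2, h3, h4⟩
      exact ⟨h2, h3, fun h5 => h4 (allDegrees_of h5)⟩
    exact_mod_cast Set.ncard_le_ncard h1
      ((Finset.finite_toSet (numbers b K D)).subset fun n hn => hn.1)

end Pool.Agent.Results.MP_b56c98_ag.PrescribedDigits
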