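import Pool.Agent.L5helper14.RDM.Bil
import Pool.Agent.Results.MP_b56c98_ag.PlanePrimeMultiplicities

set_option autoImplicit false

/-!
# The plane Hilbert functions for the multiplicities `m = u v`, `u` and `v` in arbitrary sets

Let `H_{2,r,m}` be the Hilbert function of `r` general points of multiplicity `m` in the projective plane.
The starting result `PlaneAllDegrees` determines it, `H_{2,r,m}(d) = min (binom (d + 2) 2) (r * binom (m + 1) 2)`
in every degree `d`, if `r ≥ 37` or if `r` is one of `13`, `16`, `21`, `25`, `36`; for the other `r ≥ 10`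
it says the same for all multiplicities `m` outside of a set which is described by the fractional parts of
the multiples of `√r`, `bad r` being the proportion of the bad `m`.

Here the multiplicities are the products `m = u v` of the members of two ARBITRARY sets `U ⊆ [1, X]` and
`V ⊆ [1, Y]` of integers, of which only the numbers of their members are known:
`|U| ≥ X ^ (1 - η)` and `|V| ≥ Y ^ (1 - η)` for a small `η > 0`.

**Theorem.** Let `A ≥ 1`.

(1) There are `η > 0` and `X₀` such that for all `X`, `Y ≥ X₀` with `X ≤ Y ^ A` and `Y ≤ X ^ A`, and ALL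
`U ⊆ [1, X]`, `V ⊆ [1, Y]` with `|U| ≥ X ^ (1 - η)`, `|V| ≥ Y ^ (1 - η)`: for at least
`|U| |V| / 10000 ^ 22` of the pairs `(u, v)` in `U × V` the multiplicity `m = u v` has the property that for
EVERY number `r ≥ 10` of points and EVERY degree `d` the Hilbert function is
`H_{2,r,m}(d) = min (binom (d + 2) 2) (r * binom (m + 1) 2)`.

(2) For every single `r ≥ 10` and every `δ > 0` (with `η` and `X₀` depending also on `r` and `δ`) this holds
in all degrees for `m = u v` for all but at most `(bad r + δ) |U| |V|` of the pairs; `bad r < 1`,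
`bad r = 0` for `r ≥ 37`, `r = 13`, `r = 21` and the squares, and `bad 10 < 0.163`, `bad 11 < 0.053`,
`bad 12 < 0.465`, `bad 14 < 0.738`, `bad 15 < 0.146`.

For example `U` and `V` can be sets of primes, of sums of two squares, of integers with a prescribed set
of digits (if this set contains all but few digits of a large base), or any sets of positive density; no
structure is needed. In particular every set of integers which contains all products `u v`, `u ∈ U`,
`v ∈ V`, of such sets contains a multiplicity for which the plane Hilbert functions of all numbers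
`r ≥ 10` of points are known in all degrees.

Proof. The plane systems are those of helper141 (`Pool.Agent.N141.SG`): a multiplicity `m` is good for all
numbers of points if the numbers `m √r` lie in certain arcs modulo one for 20 radicands `r`, and the
square roots of the radicands are linearly independent over `ℚ`. New: for every irrational algebraic `θ`
the sum of `e(θ u v)` over the pairs in `U × V` is `o(|U| |V|)`, by Cauchy's inequality and
Liouville's inequality for the multiples of `θ`, for `η` depending on `θ` and `A`.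
-/

namespace Pool.Agent.Results.MP_b56c98_ag.ProductsOfThinSets

open Filter
open Pool.Agent.H469R2.NK (e)
open Pool.Agent.Results.MP_b56c98_ag.PlanePrimeMultiplicities (AllDegrees bad allDegrees_of)
open Pool.Agent.L5helper14.RDM (USmall)

/-- The multiplicity `m ≥ 1` is settled for every number `r ≥ 10` of points. -/
def Holds (m : ℕ) : Prop := 1 ≤ m ∧ ∀ r : ℕ, 10 ≤ r → AllDegrees r m

/-- `U ⊆ [1, X]` and `V ⊆ [1, Y]` have at least `X ^ (1 - η)` and `Y ^ (1 - η)` members, and `X`, `Y ≥ X₀` are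
polynomially related: `X ≤ Y ^ A`, `Y ≤ X ^ A`. -/
def Thin (A η : ℝ) (X₀ X Y : ℕ) (U V : Finset ℕ) : Prop :=
  X₀ ≤ X ∧ X₀ ≤ Y ∧ (X : ℝ) ≤ (Y : ℝ) ^ A ∧ (Y : ℝ) ≤ (X : ℝ) ^ A ∧
    U ⊆ Finset.Icc 1 X ∧ V ⊆ Finset.Icc 1 Y ∧
    (X : ℝ) ^ (1 - η) ≤ (U.card : ℝ) ∧ (Y : ℝ) ^ (1 - η) ≤ (V.card : ℝ)

theorem holds_of {m : ℕ} (hm : 1 ≤ m) (h : Pool.Agent.N141.SG.Tgt (m : ℕ)) : Holds m :=
  ⟨hm, fun _ hr => allDegrees_of (Pool.Agent.N141.SG.every h hm hr)⟩

/-- the pairs as natural numbers -/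
def code (U V : Finset ℕ) : Finset ℕ := (U ×ˢ V).image fun z => Nat.pair z.1 z.2

theorem pair_inj : Function.Injective fun z : ℕ × ℕ => Nat.pair z.1 z.2 := by
  rintro ⟨a, b⟩ ⟨c, d⟩ h
  have := Nat.pair_eq_pair.1 h
  exact Prod.ext this.1 this.2

theorem card_code (U V : Finset ℕ) : (code U V).card = U.card * V.card := by
  unfold code
  rw [Finset.card_image_of_injective _ pair_inj, Finset.card_product]

/-- the value -/
def val (t : ℕ) : ℕ := t.unpair.1 * t.unpair.2

theorem usmall {A : ℝ} (hA : 1 ≤ A) :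
    USmall (fun K => {s | ∃ (X Y : ℕ) (U V : Finset ℕ), Thin A (1 / (K : ℝ)) K X Y U V ∧
      s = code U V}) val := by
  intro θ hθ ha ε hε
  obtain ⟨c, hc, h⟩ := Pool.Agent.L5helper14.RDM.bilinear_small hθ ha hA
  obtain ⟨X₀, hX₀⟩ := h (min ε 1) (lt_min hε one_pos) (min_le_right _ _)
  obtain ⟨K₁, hK₁⟩ := exists_nat_gt (1 / c)
  refine ⟨max (max X₀ K₁) 1, fun K hK s hs => ?_⟩
  obtain ⟨X, Y, U, V, ⟨h1, h2, h3, h4, h5, h6, h7, h8⟩, rfl⟩ := hs
  have hK1 : X₀ ≤ K := ((le_max_left _ _).trans (le_max_left _ _)).trans hK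
  have hK2 : K₁ ≤ K := ((le_max_right _ _).trans (le_max_left _ _)).trans hK
  have hK3 : 1 ≤ K := (le_max_right _ _).trans hK
  have hK0 : (0 : ℝ) < K := by exact_mod_cast hK3
  have hKc : 1 / (K : ℝ) ≤ c := by
    have h9 : (K₁ : ℝ) ≤ K := by exact_mod_cast hK2
    rw [div_le_iff₀ hK0]
    rw [div_lt_iff₀ hc] at hK₁
    nlinarith
  have hX1 : (1 : ℝ) ≤ X := by exact_mod_cast hK3.trans h1
  have hY1 : (1 : ℝ) ≤ Y := by exact_mod_cast hK3.trans h2
  have hUV : ((X : ℝ) * Y) ^ (1 - c) ≤ (U.card : ℝ) * V.card := by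
    rw [Real.mul_rpow (by positivity) (by positivity)]
    refine mul_le_mul ((Real.rpow_le_rpow_of_exponent_le hX1 (by linarith)).trans h7)
      ((Real.rpow_le_rpow_of_exponent_le hY1 (by linarith)).trans h8) (by positivity)
      (Nat.cast_nonneg _)
  have h9 := hX₀ X Y (hK1.trans h1) (hK1.trans h2) h3 h4 U V h5 h6 hUV
  have h10 : ∑ t ∈ code U V, e (θ * val t) = ∑ u ∈ U, ∑ v ∈ V, e (θ * (u * v)) := by
    unfold code
    rw [Finset.sum_image fun x _ y _ hxy => pair_inj hxy, Finset.sum_product]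
    refine Finset.sum_congr rfl fun u _ => Finset.sum_congr rfl fun v _ => ?_
    unfold val
    rw [Nat.unpair_pair]
    push_cast
    rfl
  rw [h10, card_code]
  refine h9.trans ?_
  push_cast
  exact mul_le_mul_of_nonneg_right (min_le_left _ _) (by positivity)

/-- counting pairs -/
theorem ncard_code (U V : Finset ℕ) {p q : ℕ → Prop} (h : ∀ m, p m → q m) :
    ({t : ℕ | t ∈ code U V ∧ p (val t)}.ncard : ℝ) ≤
      ({z : ℕ × ℕ | z ∈ U ×ˢ V ∧ q (z.1 * z.2)}.ncard : ℝ) := by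
  have h1 : {t : ℕ | t ∈ code U V ∧ p (val t)}.ncard ≤
      {z : ℕ × ℕ | z ∈ U ×ˢ V ∧ q (z.1 * z.2)}.ncard := by
    refine Set.ncard_le_ncard_of_injOn Nat.unpair ?_ ?_
      ((Finset.finite_toSet (U ×ˢ V)).subset fun z hz => hz.1)
    · rintro t ⟨ht, hp⟩
      unfold code at ht
      obtain ⟨z, hz, rfl⟩ := Finset.mem_image.1 ht
      unfold val at hp
      rw [Nat.unpair_pair] at hp ⊢
      exact ⟨hz, h _ hp⟩
    · intro s _ t _ hst
      have := congrArg (fun z : ℕ × ℕ => Nat.pair z.1 z.2) hst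
      simpa using this
  exact_mod_cast h1

/-- counting pairs, the other inequality -/
theorem ncard_code' (U V : Finset ℕ) {p q : ℕ → Prop} (h : ∀ m, q m → p m) :
    ({z : ℕ × ℕ | z ∈ U ×ˢ V ∧ q (z.1 * z.2)}.ncard : ℝ) ≤
      ({t : ℕ | t ∈ code U V ∧ p (val t)}.ncard : ℝ) := by
  have h1 : {z : ℕ × ℕ | z ∈ U ×ˢ V ∧ q (z.1 * z.2)}.ncard ≤
      {t : ℕ | t ∈ code U V ∧ p (val t)}.ncard := by
    refine Set.ncard_le_ncard_of_injOn (fun z => Nat.pair z.1 z.2) ?_ ?_
      ((Finset.finite_toSet (code U V)).subset fun z hz => hz.1)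
    · rintro z ⟨hz, hq⟩
      refine ⟨Finset.mem_image_of_mem _ hz, ?_⟩
      unfold val
      rw [Nat.unpair_pair]
      exact h _ hq
    · intro s _ t _ hst
      exact pair_inj hst
  exact_mod_cast h1

/-- **The plane Hilbert functions for products of the members of arbitrary sets.** -/
theorem result :
    (∀ A : ℝ, 1 ≤ A → ∃ η : ℝ, 0 < η ∧ ∃ X₀ : ℕ, ∀ (X Y : ℕ) (U V : Finset ℕ),
      Thin A η X₀ X Y U V →
        1 / 10000 ^ 22 * ((U.card : ℝ) * V.card) ≤
          ({z : ℕ × ℕ | z ∈ U ×ˢ V ∧ Holds (z.1 * z.2)}.ncard : ℝ)) ∧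
    (∀ A : ℝ, 1 ≤ A → ∀ r : ℕ, 10 ≤ r → ∀ δ : ℝ, 0 < δ → ∃ η : ℝ, 0 < η ∧ ∃ X₀ : ℕ,
      ∀ (X Y : ℕ) (U V : Finset ℕ), Thin A η X₀ X Y U V →
        ({z : ℕ × ℕ | z ∈ U ×ˢ V ∧ ¬ AllDegrees r (z.1 * z.2)}.ncard : ℝ) ≤
          (bad r + δ) * ((U.card : ℝ) * V.card)) ∧
    (∀ r : ℕ, 10 ≤ r → bad r < 1) ∧
    (bad 10 < 0.163 ∧ bad 11 < 0.053 ∧ bad 12 < 0.465 ∧ bad 14 < 0.738 ∧ bad 15 < 0.146) := by
  refine ⟨fun A hA => ?_, fun A hA r hr δ hδ => ?_, fun r hr =>
    Pool.Agent.N141.SG.badU_lt hr, Pool.Agent.N141.SG.badU_vals⟩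
  · obtain ⟨K₀, h⟩ := Pool.Agent.L5helper14.RDM.uniform_tgt (usmall hA)
    refine ⟨1 / ((max K₀ 1 : ℕ) : ℝ), by positivity, max K₀ 1, fun X Y U V hT => ?_⟩
    have h1 := h (max K₀ 1) (le_max_left _ _) _ ⟨X, Y, U, V, hT, rfl⟩
    rw [card_code] at h1
    push_cast at h1
    refine h1.trans (ncard_code U V (p := fun m => 1 ≤ m ∧ Pool.Agent.N141.SG.Tgt (m : ℕ))
      fun m hm => holds_of hm.1 hm.2)
  · obtain ⟨K₀, h⟩ := Pool.Agent.L5helper14.RDM.uniform_one (usmall hA) hr hδ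
    refine ⟨1 / ((max K₀ 1 : ℕ) : ℝ), by positivity, max K₀ 1, fun X Y U V hT => ?_⟩
    have h1 := h (max K₀ 1) (le_max_left _ _) _ ⟨X, Y, U, V, hT, rfl⟩
    rw [card_code] at h1
    push_cast at h1
    refine le_trans ?_ h1
    have h2 : {z : ℕ × ℕ | z ∈ U ×ˢ V ∧ ¬ AllDegrees r (z.1 * z.2)} =
        {z : ℕ × ℕ | z ∈ U ×ˢ V ∧ (1 ≤ z.1 * z.2 ∧ ¬ AllDegrees r (z.1 * z.2))} := by
      ext z
      constructor
      · rintro ⟨hz, hz'⟩
        obtain ⟨hz1, hz2⟩ := Finset.mem_product.1 hz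
        have h3 := (Finset.mem_Icc.1 (hT.2.2.2.2.1 hz1)).1
        have h4 := (Finset.mem_Icc.1 (hT.2.2.2.2.2.1 hz2)).1
        exact ⟨hz, Nat.mul_pos h3 h4, hz'⟩
      · rintro ⟨hz, -, hz'⟩
        exact ⟨hz, hz'⟩
    rw [h2]
    exact ncard_code' U V (p := fun m => 1 ≤ m ∧ ¬ Pool.Agent.N141.SG.Ex r m)
      (q := fun m => 1 ≤ m ∧ ¬ AllDegrees r m) fun m hm =>
        ⟨hm.1, fun h5 => hm.2 (allDegrees_of h5)⟩

end Pool.Agent.Results.MP_b56c98_ag.ProductsOfThinSets
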