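import Pool.Agent.L5helper14.RDM.RSet
import Pool.Agent.Results.MP_b56c98_ag.PlanePrimeMultiplicities

set_option autoImplicit false

/-!
# The plane Hilbert functions for random thin sets of multiplicities, and for arbitrary sequences of
# multiplicities to which a random walk is added

Let `H_{2,r,m}` be the Hilbert function of `r` general points of multiplicity `m` in the projective plane.
The starting result `PlaneAllDegrees` determines it, `H_{2,r,m}(d) = min (binom (d + 2) 2) (r * binom (m + 1) 2)`
in every degree `d`, if `r ≥ 37` or if `r` is one of `13`, `16`, `21`, `25`, `36`; for the other `r ≥ 10`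
it says the same for all multiplicities `m` outside of a set which is described by the fractional parts of
the multiples of `√r`, `bad r` being the proportion of the bad `m`.

**Theorem.** (1) Let `c 0, c 1, …` be an ARBITRARY sequence of natural numbers, and let `X 0, X 1, …` be
independent and identically distributed random natural numbers which are not almost surely constant. There is
no moment condition; for instance the `X i` are `0` or `1` with probability `1/2`, or they have infinite
mean. Then almost surely the multiplicities `m_n = c n + X 0 + … + X n` have the following properties.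
* For at least the proportion `1 / 10000 ^ 22` of the `n < N`, for all large `N`: for EVERY number `r ≥ 10` of
  points and EVERY degree `d` the Hilbert function is
  `H_{2,r,m}(d) = min (binom (d + 2) 2) (r * binom (m + 1) 2)`, `m = m_n`.
* For every `r ≥ 10` and `δ > 0` and all large `N` this holds in all degrees for `m = m_n` for all but at most
  the proportion `bad r + δ` of the `n < N`; `bad r < 1`, `bad r = 0` for `r ≥ 37`, `r = 13`, `r = 21` and the
  squares, and `bad 10 < 0.163`, `bad 11 < 0.053`, `bad 12 < 0.465`, `bad 14 < 0.738`, `bad 15 < 0.146`.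

(2) Let the natural numbers `m` be chosen independently with probabilities `p m` which decrease and whose sum
diverges, for instance `p m = 1 / (m log m log log m)` for large `m`: then there are only about
`log log log M` members of the random set `A` below `M`. Almost surely the number of the members of `A` below
`M` is asymptotic to the sum of `p m`, `m < M`, and the two properties of (1) hold for the members of `A`.

So these multiplicities may grow arbitrarily fast, and in (1) the sequence `c` is not restricted by any
condition: a random walk with steps `0` and `1`, added to any sequence, is enough.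

Proof. The plane systems are those of helper141 (`Pool.Agent.N141.SG`): a multiplicity `m` is good for all
numbers of points if the numbers `m √r` lie in certain arcs modulo one for 20 radicands `r`, and the
square roots of the radicands are linearly independent over `ℚ`. New: for every irrational `θ` the sum of
`e(θ m_n)` over `n < N` is almost surely `o(N)` for every sequence `c`, because the correlations are at most
`|φ| ^ |n - n'|`, where the value `φ` of the characteristic function of `X 0` at `θ` is smaller than one in
absolute value; and the sum of `e(θ m)` over the members of `A` below `M` is almost surely smaller than any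
positive multiple of their number.
-/

namespace Pool.Agent.Results.MP_b56c98_ag.RandomMultiplicities

open Filter MeasureTheory ProbabilityTheory Topology
open Pool.Agent.Results.MP_b56c98_ag.PlanePrimeMultiplicities (AllDegrees bad allDegrees_of)
open Pool.Agent.L5helper14.RDM (USmall below walk)

/-- The multiplicity `m ≥ 1` is settled for every number `r ≥ 10` of points. -/
def Holds (m : ℕ) : Prop := 1 ≤ m ∧ ∀ r : ℕ, 10 ≤ r → AllDegrees r m

/-- For all large `N` the multiplicities `m n` are good for all numbers of points and all degrees for at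
least the proportion `1 / 10000 ^ 22` of the members `n` of `s N`, and for every `r ≥ 10` and `δ > 0` they are
good for `r` points and all degrees for all but at most the proportion `bad r + δ` of the members `n` with
`m n ≥ 1`. -/
def Good (s : ℕ → Finset ℕ) (m : ℕ → ℕ) : Prop :=
  (∀ᶠ N : ℕ in atTop, 1 / 10000 ^ 22 * ((s N).card : ℝ) ≤ ({n : ℕ | n ∈ s N ∧ Holds (m n)}.ncard : ℝ)) ∧
    ∀ r : ℕ, 10 ≤ r → ∀ δ : ℝ, 0 < δ → ∀ᶠ N : ℕ in atTop,
      ({n : ℕ | n ∈ s N ∧ 1 ≤ m n ∧ ¬ AllDegrees r (m n)}.ncard : ℝ) ≤ (bad r + δ) * ((s N).card : ℝ)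

theorem holds_of {m : ℕ} (hm : 1 ≤ m) (h : Pool.Agent.N141.SG.Tgt (m : ℕ)) : Holds m :=
  ⟨hm, fun _ hr => allDegrees_of (Pool.Agent.N141.SG.every h hm hr)⟩

theorem good_of {s : ℕ → Finset ℕ} {m : ℕ → ℕ} (h : USmall (fun N => {s N}) m) : Good s m := by
  refine ⟨?_, fun r hr δ hδ => ?_⟩
  · obtain ⟨N₀, hN₀⟩ := Pool.Agent.L5helper14.RDM.uniform_tgt h
    filter_upwards [eventually_ge_atTop N₀] with N hN
    have h1 := hN₀ N hN (s N) rfl
    refine h1.trans ?_
    have h2 : {t : ℕ | t ∈ s N ∧ 1 ≤ m t ∧ Pool.Agent.N141.SG.Tgt (m t : ℕ)} ⊆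
        {n : ℕ | n ∈ s N ∧ Holds (m n)} := fun t ht => ⟨ht.1, holds_of ht.2.1 ht.2.2⟩
    exact_mod_cast Set.ncard_le_ncard h2 ((Finset.finite_toSet (s N)).subset fun n hn => hn.1)
  · obtain ⟨N₀, hN₀⟩ := Pool.Agent.L5helper14.RDM.uniform_one h hr hδ
    filter_upwards [eventually_ge_atTop N₀] with N hN
    have h1 := hN₀ N hN (s N) rfl
    refine le_trans ?_ h1
    have h2 : {n : ℕ | n ∈ s N ∧ 1 ≤ m n ∧ ¬ AllDegrees r (m n)} ⊆
        {t : ℕ | t ∈ s N ∧ 1 ≤ m t ∧ ¬ Pool.Agent.N141.SG.Ex r (m t)} := fun t ht =>
      ⟨ht.1, ht.2.1, fun h3 => ht.2.2 (allDegrees_of h3)⟩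
    exact_mod_cast Set.ncard_le_ncard h2 ((Finset.finite_toSet (s N)).subset fun n hn => hn.1)

/-- **The plane Hilbert functions for random multiplicities.** -/
theorem result (Ω : Type) [MeasurableSpace Ω] (P : Measure Ω) [IsProbabilityMeasure P] :
    (∀ (c : ℕ → ℕ) (X : ℕ → Ω → ℕ), (∀ i, Measurable (X i)) → iIndepFun X P →
      (∀ i, IdentDistrib (X i) (X 0) P P) → (¬ ∃ a : ℕ, ∀ᵐ ω ∂P, X 0 ω = a) →
      ∀ᵐ ω ∂P, Good (fun N => Finset.range N) fun n => c n + ∑ i ∈ Finset.range (n + 1), X i ω) ∧
    (∀ (ξ : ℕ → Ω → Bool) (p : ℕ → ℝ), (∀ m, Measurable (ξ m)) → iIndepFun ξ P →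
      (∀ m, P.real {ω | ξ m ω = true} = p m) → Antitone p → ¬ Summable p →
      ∀ᵐ ω ∂P,
        Tendsto (fun M : ℕ => (((Finset.range M).filter fun m => ξ m ω = true).card : ℝ) /
          ∑ m ∈ Finset.range M, p m) atTop (𝓝 1) ∧
        Good (fun M => (Finset.range M).filter fun m => ξ m ω = true) fun m => m) ∧
    (∀ r : ℕ, 10 ≤ r → bad r < 1) ∧
    (bad 10 < 0.163 ∧ bad 11 < 0.053 ∧ bad 12 < 0.465 ∧ bad 14 < 0.738 ∧ bad 15 < 0.146) := by
  refine ⟨fun c X hX hind hid hne => ?_, fun ξ p hξ hind hp hanti hdiv => ?_, fun r hr =>
    Pool.Agent.N141.SG.badU_lt hr, Pool.Agent.N141.SG.badU_vals⟩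
  · filter_upwards [Pool.Agent.L5helper14.RDM.walk_small c hX hind hid hne] with ω hω
    exact good_of hω
  · filter_upwards [Pool.Agent.L5helper14.RDM.rset_small hξ hind hp hanti hdiv] with ω hω
    obtain ⟨h1, h2⟩ := hω
    refine ⟨h1, good_of ?_⟩
    intro θ hθ hθa ε hε
    obtain ⟨M₀, hM₀⟩ := h2 θ hθ hθa ε hε
    refine ⟨M₀, fun M hM s hs => ?_⟩
    rw [Set.mem_singleton_iff.1 hs]
    exact hM₀ M hM

end Pool.Agent.Results.MP_b56c98_ag.RandomMultiplicities
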